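import Pool.Agent.Helper61.DIH.Final

/-!
MP_249799_al, Q1 (partial).  Let `D` be a division ring algebraic over its centre `F`, let
`L ⊆ M` be subfields of `D` containing `F` and finite over `F`, let `E` be a quadratic Galois
extension of `L`, and let `l` be a prime such that the irreducible factors of `X ^ l - 1` over `L`
have degree at most two.  If `E ⊗ M` has an `E`-automorphism of order `l`, then some subfield of
`D` has an `F`-automorphism other than the identity.
-/

set_option autoImplicit false

open Polynomial TensorProduct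

namespace Pool.Agent.Results.MP_249799_al.Dihedral

theorem result {F D : Type*} [Field F] [DivisionRing D] [Algebra F D]
    (hcen : ∀ x : D, (∀ y : D, y * x = x * y) → x ∈ Set.range (algebraMap F D))
    (halg : Algebra.IsAlgebraic F D)
    {L M E : Type*} [Field L] [Algebra F L] [FiniteDimensional F L]
    [Field M] [Algebra F M] [Algebra L M] [IsScalarTower F L M] [FiniteDimensional L M]
    (ι : M →ₐ[F] D)
    [Field E] [Algebra L E] [IsGalois L E] (h2 : Module.finrank L E = 2)
    (l : ℕ) (hl : l.Prime) (hroot : ∀ g : L[X], Irreducible g → g ∣ X ^ l - 1 → g.natDegree ≤ 2)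
    (ρ : (E ⊗[L] M) ≃ₐ[E] (E ⊗[L] M)) (hρ : ρ ≠ AlgEquiv.refl) (hρl : ρ ^ l = 1) :
    ∃ K : Subalgebra F D, (∀ x ∈ K, ∀ y ∈ K, x * y = y * x) ∧
      ∃ σ : K ≃ₐ[F] K, σ ≠ AlgEquiv.refl := by
  have : FiniteDimensional L E := Module.finite_of_finrank_eq_succ h2
  exact Pool.Agent.Helper61.DIH.good_dihedral hcen halg ι h2 l hl hroot ρ hρ hρl

end Pool.Agent.Results.MP_249799_al.Dihedral
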