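import Pool.Agent.Helper4.GAL.TwoDim

/-!
MP_249799_al, Q1 (partial).  Let `D` be a division ring algebraic over its centre `F`, and let `E`
be a division ring inside `D` that is an algebra over a finite extension field `B` of `F`.  If `E`
has a `B`-linear endomorphism or anti-endomorphism `ψ` and an element `x` with `ψ x ≠ x` that is
killed by `P(ψ)` for a nonzero polynomial `P` over `B` whose irreducible factors have degree at
most two, then some subfield of `D` has an `F`-automorphism other than the identity.
-/

set_option autoImplicit false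

open Polynomial

namespace Pool.Agent.Results.MP_249799_al.SmallFactors

theorem result {F D B E : Type*} [Field F] [DivisionRing D] [Algebra F D]
    (hcen : ∀ x : D, (∀ y : D, y * x = x * y) → x ∈ Set.range (algebraMap F D))
    (halg : Algebra.IsAlgebraic F D)
    [Field B] [Algebra F B] [FiniteDimensional F B]
    [DivisionRing E] [Algebra F E] [Algebra B E] [IsScalarTower F B E]
    (ι : E →ₐ[F] D)
    (ψ : E →ₗ[B] E) (h1 : ψ 1 = 1)
    (hmul : (∀ u v : E, ψ (u * v) = ψ u * ψ v) ∨ (∀ u v : E, ψ (u * v) = ψ v * ψ u))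
    (P : B[X]) (hP : P ≠ 0)
    (hirr : ∀ g : B[X], Irreducible g → g ∣ P → g.natDegree ≤ 2)
    (x : E) (hx : aeval ψ P x = 0) (hne : ψ x ≠ x) :
    ∃ K : Subalgebra F D, (∀ x ∈ K, ∀ y ∈ K, x * y = y * x) ∧
      ∃ σ : K ≃ₐ[F] K, σ ≠ AlgEquiv.refl :=
  Pool.Agent.Helper4.GAL.good_of_small_factors hcen halg ι ψ h1 hmul P hP hirr x hx hne

end Pool.Agent.Results.MP_249799_al.SmallFactors
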