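import Pool.Agent.Helper4.GAL.Step

/-!
MP_249799_al, Q1 (partial).  Let `D` be a division ring algebraic over its centre `F`.  If `D` has
commutative subalgebras `L < M`, finite-dimensional over `F`, with `[M : L] ≤ 4` (for instance
`L = F` and `M` generated by a noncentral element of degree at most four), then some commutative
subalgebra of `D` has an `F`-automorphism other than the identity.
-/

set_option autoImplicit false

namespace Pool.Agent.Results.MP_249799_al.SmallStep

theorem result {F D : Type*} [Field F] [DivisionRing D] [Algebra F D]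
    (hcen : ∀ x : D, (∀ y : D, y * x = x * y) → x ∈ Set.range (algebraMap F D))
    (halg : Algebra.IsAlgebraic F D)
    (L M : Subalgebra F D) (hLM : L < M) (hM : ∀ x ∈ M, ∀ y ∈ M, x * y = y * x)
    (hfin : FiniteDimensional F M) (hdim : Module.finrank F M ≤ 4 * Module.finrank F L) :
    ∃ K : Subalgebra F D, (∀ x ∈ K, ∀ y ∈ K, x * y = y * x) ∧
      ∃ σ : K ≃ₐ[F] K, σ ≠ AlgEquiv.refl :=
  Pool.Agent.Helper4.GAL.good_of_step hcen halg L M hLM hM hfin hdim

end Pool.Agent.Results.MP_249799_al.SmallStep
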