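import Pool.Agent.Helper4.GAL.Solv

/-!
MP_249799_al, Q1 (partial).  Let `D` be a division ring algebraic over a central subfield `F`.  If
the unit group of `D` has a nonabelian subgroup with a soluble normal subgroup of finite index,
then some subfield of `D` has an `F`-automorphism other than the identity.
-/

set_option autoImplicit false

namespace Pool.Agent.Results.MP_249799_al.VirtuallySoluble

theorem result {F D : Type*} [Field F] [DivisionRing D] [Algebra F D]
    (halg : Algebra.IsAlgebraic F D) (G : Subgroup Dˣ)
    (N : Subgroup G) (hnormal : N.Normal) (hindex : N.FiniteIndex) (hsol : Group.IsSolvable N)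
    (hne : ∃ g ∈ G, ∃ h ∈ G, g * h ≠ h * g) :
    ∃ K : Subalgebra F D, (∀ x ∈ K, ∀ y ∈ K, x * y = y * x) ∧
      ∃ σ : K ≃ₐ[F] K, σ ≠ AlgEquiv.refl :=
  Pool.Agent.Helper4.GAL.good_of_virtually_solvable halg G N hne

end Pool.Agent.Results.MP_249799_al.VirtuallySoluble
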